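import Mathlib
import Pool.Agent.Q80.EW.Stm

set_option autoImplicit false

/-!
Lemma job LV of project EW (helper80): the maximum of the Gaussian walk.
-/

namespace Pool.Agent.Q129.EW

open MeasureTheory ProbabilityTheory Filter Topology
open Pool.Agent.Q80.EW

noncomputable section

instance (m : ℕ) (J : Type) [Fintype J] : IsProbabilityMeasure (gm m J) := by
  unfold gm; infer_instance

/-- the reflection after the time `k` -/
def rf {m : ℕ} (k : Fin m) (x : Fin m → ℝ) : Fin m → ℝ := fun i => if i ≤ k then x i else -x i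

lemma mp_rf {m : ℕ} (k : Fin m) : MeasurePreserving (rf k) (gm m (Fin m)) (gm m (Fin m)) := by
  have h : ∀ i : Fin m, MeasurePreserving (fun y : ℝ => if i ≤ k then y else -y)
      (gaussianReal 0 (Real.toNNReal (1 / (2 * (m : ℝ)))))
      (gaussianReal 0 (Real.toNNReal (1 / (2 * (m : ℝ))))) := by
    intro i
    by_cases hi : i ≤ k
    · simp only [hi, if_true]
      exact MeasurePreserving.id _
    · simp only [hi, if_false]
      refine ⟨measurable_neg, ?_⟩
      have := @gaussianReal_map_neg 0 (Real.toNNReal (1 / (2 * (m : ℝ))))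
      rw [this, neg_zero]
  exact measurePreserving_pi _ _ h

/-- partial sums -/
def ps {m : ℕ} (k : Fin m) (x : Fin m → ℝ) : ℝ := ∑ i ∈ Finset.Iic k, x i

lemma ms_ps {m : ℕ} (k : Fin m) : Measurable (ps k) :=
  Finset.measurable_sum _ fun i _ => measurable_pi_apply i

lemma ps_rf_le {m : ℕ} (k j : Fin m) (h : j ≤ k) (x : Fin m → ℝ) : ps j (rf k x) = ps j x := by
  unfold ps rf
  refine Finset.sum_congr rfl fun i hi => ?_
  rw [if_pos ((Finset.mem_Iic.1 hi).trans h)]

lemma sum_rf {m : ℕ} (k : Fin m) (x : Fin m → ℝ) :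
    ∑ i, rf k x i = 2 * ps k x - ∑ i, x i := by
  have h : ∀ i : Fin m, rf k x i = 2 * (if i ∈ Finset.Iic k then x i else 0) - x i := by
    intro i
    unfold rf
    by_cases hi : i ≤ k
    · simp [hi]; ring
    · simp [hi]
  simp_rw [h]
  rw [Finset.sum_sub_distrib, ← Finset.mul_sum]
  simp only [Finset.sum_ite_mem, Finset.univ_inter]
  rfl

/-- the event that `k` is the first passage time -/
def fp {m : ℕ} (b : ℝ) (k : Fin m) : Set (Fin m → ℝ) :=
  {x | b < ps k x ∧ ∀ j : Fin m, j < k → ps j x ≤ b}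

lemma ms_fp {m : ℕ} (b : ℝ) (k : Fin m) : MeasurableSet (fp b k) := by
  have : fp b k = {x | b < ps k x} ∩ ⋂ j : Fin m, ⋂ _ : j < k, {x | ps j x ≤ b} := by
    ext x; simp [fp]
  rw [this]
  refine (measurableSet_lt measurable_const (ms_ps k)).inter ?_
  exact MeasurableSet.iInter fun j => MeasurableSet.iInter fun _ =>
    measurableSet_le (ms_ps j) measurable_const

lemma ms_sum {m : ℕ} : Measurable (fun x : Fin m → ℝ => ∑ i, x i) :=
  Finset.measurable_sum _ fun i _ => measurable_pi_apply i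

lemma rf_fp {m : ℕ} (b : ℝ) (k : Fin m) (x : Fin m → ℝ) (hx : x ∈ fp b k) : rf k x ∈ fp b k :=
  ⟨by rw [ps_rf_le k k le_rfl]; exact hx.1, fun j hj => by
    rw [ps_rf_le k j hj.le]; exact hx.2 j hj⟩

/-- passage -/
def pa (m : ℕ) (b : ℝ) : Set (Fin m → ℝ) := {x | ∃ k : Fin m, b < ps k x}

lemma pa_eq (m : ℕ) (b : ℝ) : pa m b = ⋃ k : Fin m, fp b k := by
  ext x
  simp only [pa, Set.mem_ofPred_eq, Set.mem_iUnion]
  constructor
  · rintro ⟨k, hk⟩
    have hne : (Finset.univ.filter fun k : Fin m => b < ps k x).Nonempty := ⟨k, by simpa using hk⟩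
    refine ⟨(Finset.univ.filter fun k : Fin m => b < ps k x).min' hne, ?_, ?_⟩
    · have := Finset.min'_mem _ hne
      simpa using this
    · intro j hj
      by_contra hc
      have : j ∈ Finset.univ.filter fun k : Fin m => b < ps k x := by
        simpa using hc
      exact absurd (Finset.min'_le _ j this) (not_le.2 hj)
  · rintro ⟨k, hk⟩
    exact ⟨k, hk.1⟩

lemma ms_pa (m : ℕ) (b : ℝ) : MeasurableSet (pa m b) := by
  rw [pa_eq]; exact MeasurableSet.iUnion fun k => ms_fp b k

lemma dj {m : ℕ} (b : ℝ) (E : Set (Fin m → ℝ)) :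
    Pairwise (Function.onFun Disjoint fun k : Fin m => fp b k ∩ E) := by
  intro i j hij
  refine Set.disjoint_left.2 ?_
  rintro x ⟨hi, _⟩ ⟨hj, _⟩
  rcases lt_or_gt_of_ne hij with h | h
  · exact absurd hi.1 (not_lt.2 (hj.2 i h))
  · exact absurd hj.1 (not_lt.2 (hi.2 j h))

lemma real_pa {m : ℕ} (b : ℝ) (E : Set (Fin m → ℝ)) (hE : MeasurableSet E) :
    (gm m (Fin m)).real (pa m b ∩ E) = ∑ k : Fin m, (gm m (Fin m)).real (fp b k ∩ E) := by
  have h : pa m b ∩ E = ⋃ k ∈ (Finset.univ : Finset (Fin m)), fp b k ∩ E := by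
    rw [pa_eq, Set.iUnion_inter]; simp
  rw [h, measureReal_biUnion_finset]
  · intro i _ j _ hij
    exact dj b E hij
  · intro k _
    exact (ms_fp b k).inter hE

lemma gam_eq (m : ℕ) (b : ℝ) : gam m b = 1 - (gm m (Fin m)).real (pa m b) := by
  have h : {x : Fin m → ℝ | ∀ k : Fin m, ∑ i ∈ Finset.Iic k, x i ≤ b} = (pa m b)ᶜ := by
    ext x
    simp [pa, ps]
  unfold gam
  rw [h, probReal_compl_eq_one_sub (ms_pa m b)]

lemma last_eq {m : ℕ} (hm : 0 < m) (x : Fin m → ℝ) : ps ⟨m - 1, by omega⟩ x = ∑ i, x i := by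
  unfold ps
  congr 1
  ext i
  simp only [Finset.mem_Iic, Finset.mem_univ, iff_true]
  exact Fin.mk_le_mk.2 (by omega)

lemma upper {m : ℕ} (hm : 0 < m) (b : ℝ) :
    (gm m (Fin m)).real (pa m b) ≤ 2 * (gm m (Fin m)).real {x | b < ∑ i, x i} := by
  set μ := gm m (Fin m)
  have hS : MeasurableSet {x : Fin m → ℝ | b < ∑ i, x i} := measurableSet_lt measurable_const ms_sum
  have hS' : MeasurableSet {x : Fin m → ℝ | ∑ i, x i ≤ b} := measurableSet_le ms_sum measurable_const
  have h1 : μ.real (pa m b) = μ.real (pa m b ∩ {x | b < ∑ i, x i}) +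
      μ.real (pa m b ∩ {x | ∑ i, x i ≤ b}) := by
    rw [← measureReal_inter_add_sdiff (s := pa m b) hS]
    congr 2
    ext x
    simp
  have h2 : μ.real (pa m b ∩ {x | ∑ i, x i ≤ b}) ≤ μ.real (pa m b ∩ {x | b < ∑ i, x i}) := by
    rw [real_pa b _ hS, real_pa b _ hS']
    refine Finset.sum_le_sum fun k _ => ?_
    have h3 : fp b k ∩ {x | ∑ i, x i ≤ b} ⊆ rf k ⁻¹' (fp b k ∩ {x | b < ∑ i, x i}) := by
      rintro x ⟨hx, hx'⟩
      refine ⟨rf_fp b k x hx, ?_⟩
      have h4 := hx.1
      simp only [Set.mem_ofPred_eq] at hx' ⊢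
      rw [sum_rf]
      linarith
    calc μ.real (fp b k ∩ {x | ∑ i, x i ≤ b})
        ≤ μ.real (rf k ⁻¹' (fp b k ∩ {x | b < ∑ i, x i})) := measureReal_mono h3
      _ = μ.real (fp b k ∩ {x | b < ∑ i, x i}) :=
        (mp_rf k).measureReal_preimage ((ms_fp b k).inter hS).nullMeasurableSet
  have h5 : μ.real (pa m b ∩ {x | b < ∑ i, x i}) ≤ μ.real {x | b < ∑ i, x i} :=
    measureReal_mono Set.inter_subset_right
  linarith

lemma lower {m : ℕ} (hm : 0 < m) (b δ : ℝ) (hb : 0 < b) (hδ : 0 < δ) :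
    (gm m (Fin m)).real {x | b < ∑ i, x i} + (gm m (Fin m)).real {x | b + 2 * δ < ∑ i, x i} -
      (gm m (Fin m)).real {x | ∃ i, δ < x i} ≤ (gm m (Fin m)).real (pa m b) := by
  set μ := gm m (Fin m)
  have hS : MeasurableSet {x : Fin m → ℝ | b < ∑ i, x i} := measurableSet_lt measurable_const ms_sum
  have hS' : MeasurableSet {x : Fin m → ℝ | ∑ i, x i ≤ b} := measurableSet_le ms_sum measurable_const
  have hS2 : MeasurableSet {x : Fin m → ℝ | b + 2 * δ < ∑ i, x i} :=
    measurableSet_lt measurable_const ms_sum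
  have hD : MeasurableSet {x : Fin m → ℝ | ∀ i, x i ≤ δ} := by
    have : {x : Fin m → ℝ | ∀ i, x i ≤ δ} = ⋂ i : Fin m, {x | x i ≤ δ} := by ext x; simp
    rw [this]
    exact MeasurableSet.iInter fun i => measurableSet_le (measurable_pi_apply i) measurable_const
  have hsub : {x : Fin m → ℝ | b < ∑ i, x i} ⊆ pa m b := fun x hx =>
    ⟨⟨m - 1, by omega⟩, by rw [last_eq hm]; exact hx⟩
  have hsub2 : {x : Fin m → ℝ | b + 2 * δ < ∑ i, x i} ⊆ pa m b := fun x hx =>
    hsub (by simp only [Set.mem_ofPred_eq] at hx ⊢; linarith)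
  have h1 : μ.real (pa m b) = μ.real {x | b < ∑ i, x i} +
      μ.real (pa m b ∩ {x | ∑ i, x i ≤ b}) := by
    rw [← measureReal_inter_add_sdiff (s := pa m b) hS, Set.inter_eq_self_of_subset_right hsub]
    congr 2
    ext x
    simp
  set E : Set (Fin m → ℝ) := {x | b + 2 * δ < ∑ i, x i} ∩ {x | ∀ i, x i ≤ δ}
  have hE : MeasurableSet E := hS2.inter hD
  have h2 : μ.real (pa m b ∩ E) ≤ μ.real (pa m b ∩ {x | ∑ i, x i ≤ b}) := by
    rw [real_pa b _ hE, real_pa b _ hS']
    refine Finset.sum_le_sum fun k _ => ?_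
    have h3 : fp b k ∩ E ⊆ rf k ⁻¹' (fp b k ∩ {x | ∑ i, x i ≤ b}) := by
      rintro x ⟨hx, hx1, hx2⟩
      refine ⟨rf_fp b k x hx, ?_⟩
      simp only [Set.mem_ofPred_eq] at hx1 hx2 ⊢
      rw [sum_rf]
      have h4 : ps k x ≤ b + δ := by
        rcases Nat.eq_zero_or_pos k.1 with h0 | h0
        · have : Finset.Iic k = {k} := by
            ext i
            simp only [Finset.mem_Iic, Finset.mem_singleton]
            constructor
            · intro hi; exact Fin.ext (by have := Fin.le_def.1 hi; omega)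
            · intro hi; rw [hi]
          unfold ps
          rw [this, Finset.sum_singleton]
          have := hx2 k
          linarith
        · have hk1 : k.1 - 1 < m := by omega
          have h5 := hx.2 ⟨k.1 - 1, hk1⟩ (Fin.lt_def.2 (by simp; omega))
          have h6 : Finset.Iic k = insert k (Finset.Iic (⟨k.1 - 1, hk1⟩ : Fin m)) := by
            ext i
            simp only [Finset.mem_Iic, Finset.mem_insert, Fin.le_def, Fin.ext_iff]
            omega
          have h7 : ps k x = x k + ps ⟨k.1 - 1, hk1⟩ x := by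
            unfold ps
            rw [h6, Finset.sum_insert]
            simp only [Finset.mem_Iic, Fin.le_def]
            omega
          have := hx2 k
          linarith
      linarith
    calc μ.real (fp b k ∩ E)
        ≤ μ.real (rf k ⁻¹' (fp b k ∩ {x | ∑ i, x i ≤ b})) := measureReal_mono h3
      _ = μ.real (fp b k ∩ {x | ∑ i, x i ≤ b}) :=
        (mp_rf k).measureReal_preimage ((ms_fp b k).inter hS').nullMeasurableSet
  have h8 : μ.real {x | b + 2 * δ < ∑ i, x i} ≤ μ.real (pa m b ∩ E) + μ.real {x | ∃ i, δ < x i} := by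
    refine (measureReal_mono ?_).trans (measureReal_union_le _ _)
    intro x hx
    by_cases h : ∃ i, δ < x i
    · exact Or.inr h
    · refine Or.inl ⟨hsub2 hx, hx, ?_⟩
      push Not at h
      exact h
  linarith

/-! ### the law of the sum -/

lemma law_sum {m : ℕ} (hm : 0 < m) :
    (gm m (Fin m)).map (fun x => ∑ i, x i) = gaussianReal 0 (Real.toNNReal (1 / 2)) := by
  refine Measure.ext_of_charFun (funext fun t => ?_)
  rw [charFun_gaussianReal, charFun_apply_real, integral_map ms_sum.aemeasurable (by fun_prop)]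
  have h : ∀ x : Fin m → ℝ, Complex.exp ((t : ℂ) * ((∑ i, x i : ℝ) : ℂ) * Complex.I) =
      ∏ i, Complex.exp ((t : ℂ) * (x i : ℂ) * Complex.I) := by
    intro x
    rw [← Complex.exp_sum]
    congr 1
    push_cast
    rw [Finset.mul_sum, Finset.sum_mul]
  simp_rw [h]
  unfold gm
  rw [integral_fintype_prod_eq_pow (fun y : ℝ => Complex.exp ((t : ℂ) * (y : ℂ) * Complex.I)),
    ← charFun_apply_real, charFun_gaussianReal, ← Complex.exp_nat_mul, Fintype.card_fin]
  congr 1
  have hm' : (m : ℂ) ≠ 0 := by exact_mod_cast hm.ne'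
  rw [Real.coe_toNNReal _ (by positivity), Real.coe_toNNReal _ (by positivity)]
  push_cast
  field_simp
  ring

lemma pr_sum {m : ℕ} (hm : 0 < m) (a : ℝ) :
    (gm m (Fin m)).real {x | a < ∑ i, x i} =
      (gaussianReal 0 (Real.toNNReal (1 / 2))).real (Set.Ioi a) := by
  rw [← law_sum hm, map_measureReal_apply ms_sum measurableSet_Ioi]
  rfl

lemma pr_gauss (a : ℝ) (ha : 0 ≤ a) :
    (gaussianReal 0 (Real.toNNReal (1 / 2))).real (Set.Ioi a) = (1 - erf a) / 2 := by
  have hv : Real.toNNReal (1 / 2) ≠ 0 := by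
    have : (0 : ℝ) < 1 / 2 := by norm_num
    exact (Real.toNNReal_pos.2 this).ne'
  rw [measureReal_def, gaussianReal_apply_eq_integral _ hv, ENNReal.toReal_ofReal
    (setIntegral_nonneg measurableSet_Ioi fun x _ => gaussianPDFReal_nonneg _ _ _)]
  have h1 : ∀ x : ℝ, gaussianPDFReal 0 (Real.toNNReal (1 / 2)) x =
      (Real.sqrt Real.pi)⁻¹ * Real.exp (-x ^ 2) := by
    intro x
    unfold gaussianPDFReal
    rw [Real.coe_toNNReal _ (by norm_num)]
    congr 2
    · congr 1; ring
    · congr 1; ring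
  simp_rw [h1]
  rw [integral_const_mul]
  have hint : Integrable (fun x : ℝ => Real.exp (-x ^ 2)) := by
    have := integrable_exp_neg_mul_sq (b := 1) one_pos
    simpa using this
  have h2 : (∫ x in (0 : ℝ)..a, Real.exp (-x ^ 2)) + ∫ x in Set.Ioi a, Real.exp (-x ^ 2) =
      ∫ x in Set.Ioi (0 : ℝ), Real.exp (-x ^ 2) :=
    intervalIntegral.integral_interval_add_Ioi hint.integrableOn hint.integrableOn
  have h3 : ∫ x in Set.Ioi (0 : ℝ), Real.exp (-x ^ 2) = Real.sqrt Real.pi / 2 := by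
    have := integral_gaussian_Ioi 1
    simpa using this
  unfold erf
  have hp : 0 < Real.sqrt Real.pi := Real.sqrt_pos.2 Real.pi_pos
  have h4 : ∫ x in Set.Ioi a, Real.exp (-x ^ 2) =
      Real.sqrt Real.pi / 2 - ∫ x in (0 : ℝ)..a, Real.exp (-x ^ 2) := by linarith
  rw [h4]
  field_simp

lemma erf_cont : Continuous erf := by
  unfold erf
  refine continuous_const.mul ?_
  have : Continuous fun x : ℝ => Real.exp (-x ^ 2) := by fun_prop
  exact intervalIntegral.continuous_primitive (fun a b => this.intervalIntegrable a b) 0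

/-! ### small increments -/

lemma pr_inc {m : ℕ} (hm : 0 < m) (δ : ℝ) (hδ : 0 < δ) :
    (gm m (Fin m)).real {x | ∃ i, δ < x i} ≤ m * Real.exp (-(m * δ ^ 2)) := by
  have h1 : {x : Fin m → ℝ | ∃ i, δ < x i} = ⋃ i ∈ (Finset.univ : Finset (Fin m)), {x | δ < x i} := by
    ext x; simp
  rw [h1]
  refine (measureReal_biUnion_finset_le _ _).trans ?_
  have h2 : ∀ i : Fin m, (gm m (Fin m)).real {x | δ < x i} ≤ Real.exp (-(m * δ ^ 2)) := by
    intro i
    have hmp : MeasurePreserving (fun x : Fin m → ℝ => x i) (gm m (Fin m))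
        (gaussianReal 0 (Real.toNNReal (1 / (2 * (m : ℝ))))) := by
      unfold gm
      exact measurePreserving_eval (fun _ : Fin m => gaussianReal 0 (Real.toNNReal (1 / (2 * (m : ℝ))))) i
    have h3 := measure_ge_le_exp_mul_mgf (μ := gm m (Fin m)) (X := fun x : Fin m → ℝ => x i) δ
      (t := 2 * m * δ) (by positivity) (by
        have := integrable_exp_mul_gaussianReal (μ := 0)
          (v := Real.toNNReal (1 / (2 * (m : ℝ)))) (2 * m * δ)
        exact (hmp.integrable_comp this.aestronglyMeasurable).2 this)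
    rw [mgf_gaussianReal hmp.map_eq, Real.coe_toNNReal _ (by positivity)] at h3
    refine (measureReal_mono (fun x hx => ?_)).trans (h3.trans_eq ?_)
    · simp only [Set.mem_ofPred_eq] at hx ⊢
      exact le_of_lt hx
    · rw [← Real.exp_add]
      congr 1
      have : (m : ℝ) ≠ 0 := by exact_mod_cast hm.ne'
      field_simp
      ring
  calc ∑ i : Fin m, (gm m (Fin m)).real {x | δ < x i}
      ≤ ∑ _i : Fin m, Real.exp (-(m * δ ^ 2)) := Finset.sum_le_sum fun i _ => h2 i
    _ = m * Real.exp (-(m * δ ^ 2)) := by simp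

lemma lim_inc (δ : ℝ) (hδ : 0 < δ) :
    Tendsto (fun m : ℕ => (m : ℝ) * Real.exp (-(m * δ ^ 2))) atTop (𝓝 0) := by
  have h := Real.tendsto_pow_mul_exp_neg_atTop_nhds_zero 1
  have h2 : Tendsto (fun m : ℕ => (m : ℝ) * δ ^ 2) atTop atTop :=
    tendsto_natCast_atTop_atTop.atTop_mul_const (by positivity)
  have h3 := (h.comp h2).const_mul (δ ^ 2)⁻¹
  rw [mul_zero] at h3
  refine h3.congr fun m => ?_
  simp only [Function.comp, pow_one]
  have : δ ^ 2 ≠ 0 := by positivity
  field_simp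

theorem t_LV : J_LV := by
  intro b hb
  rw [Metric.tendsto_atTop]
  intro ε hε
  -- continuity of erf at b
  obtain ⟨δ, hδ, hc⟩ : ∃ δ : ℝ, 0 < δ ∧ |erf (b + 2 * δ) - erf b| < ε := by
    have h := (erf_cont.tendsto b)
    rw [Metric.tendsto_nhds_nhds] at h
    obtain ⟨r, hr, h⟩ := h ε hε
    refine ⟨r / 4, by positivity, ?_⟩
    have := @h (b + 2 * (r / 4)) (by
      rw [Real.dist_eq]
      have : b + 2 * (r / 4) - b = r / 2 := by ring
      rw [this, abs_of_pos (by positivity)]
      linarith)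
    rwa [Real.dist_eq] at this
  have h1 := (lim_inc δ hδ)
  rw [Metric.tendsto_atTop] at h1
  obtain ⟨N, hN⟩ := h1 (ε / 2) (by positivity)
  refine ⟨max N 1, fun m hm => ?_⟩
  have hm0 : 0 < m := lt_of_lt_of_le one_pos (le_trans (le_max_right _ _) hm)
  have hmN : N ≤ m := le_trans (le_max_left _ _) hm
  have h2 := hN m hmN
  rw [Real.dist_eq, sub_zero, abs_of_nonneg (by positivity)] at h2
  have h3 := pr_inc hm0 δ hδ
  have h4 := upper hm0 b
  have h5 := lower hm0 b δ hb hδ
  rw [pr_sum hm0, pr_gauss b hb.le] at h4 h5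
  rw [pr_sum hm0, pr_gauss (b + 2 * δ) (by positivity)] at h5
  rw [Real.dist_eq, gam_eq, abs_lt]
  rw [abs_lt] at hc
  constructor
  · linarith
  · linarith

end

end Pool.Agent.Q129.EW
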