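import Mathlib
import Pool.Agent.Y957.VK.Fin1
import Pool.Agent.Y751.VK.Lam

set_option autoImplicit false

/-!
The prime number theorem with the classical error term `x exp (-c √(log x))` (from the zero free region of
project VK).
-/

namespace Pool.Agent.Q129.EW.PE

open Pool.Agent.Y751.VK (RS aa RS_bound unsmooth aa_norm)
open Pool.Agent.Y957.VK (zeta_all inv_all)

noncomputable section

lemma pow_le_exp (K κ : ℝ) (hκ : 0 < κ) :
    ∃ C : ℝ, 0 < C ∧ ∀ x : ℝ, 1 ≤ x → x ^ K ≤ C * Real.exp (κ * x) := by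
  set n := ⌈K⌉₊ with hn
  refine ⟨(n.factorial : ℝ) / κ ^ n, by positivity, fun x hx => ?_⟩
  have h1 : x ^ K ≤ x ^ n := by
    rw [← Real.rpow_natCast]
    exact Real.rpow_le_rpow_of_exponent_le hx (Nat.le_ceil K)
  have h2 := Real.pow_div_factorial_le_exp (κ * x) (by positivity) n
  rw [mul_pow] at h2
  refine h1.trans ?_
  have h3 : x ^ n = (n.factorial : ℝ) / κ ^ n * (κ ^ n * x ^ n / n.factorial) := by
    have : (n.factorial : ℝ) ≠ 0 := by positivity
    field_simp
  rw [h3]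
  exact mul_le_mul_of_nonneg_left h2 (by positivity)

lemma rs_bound : ∃ C c : ℝ, 0 < C ∧ 0 < c ∧ c ≤ 1 / 4 ∧ ∀ v : ℝ, 1 ≤ v →
    ‖RS 0 v‖ ≤ C * (Real.exp v * Real.exp (-(c * Real.sqrt v))) := by
  obtain ⟨δ, K, T₀, hδ, hδ1, hK, hT₀, hb⟩ := RS_bound zeta_all inv_all
  have hl0 : 0 ≤ Real.log T₀ := Real.log_nonneg (by linarith)
  set D := Real.log T₀ + 1 with hD
  have hD1 : 1 ≤ D := by linarith
  obtain ⟨C1, hC1, h1⟩ := pow_le_exp K (1 / (4 * D)) (by positivity)
  obtain ⟨C2, hC2, h2⟩ := pow_le_exp 4 (1 / (4 * D)) (by positivity)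
  refine ⟨72 * (2 * (D ^ K * C1) + C2), 1 / (4 * D), by positivity, by positivity, ?_, ?_⟩
  · rw [div_le_div_iff₀ (by positivity) (by norm_num)]
    linarith
  intro v hv
  set x := Real.sqrt v with hx
  have hx1 : 1 ≤ x := by
    rw [hx]
    exact Real.one_le_sqrt.2 hv
  have hx0 : 0 < x := by linarith
  have hxv : x ^ 2 = v := Real.sq_sqrt (by linarith)
  have hT : Real.log (T₀ * Real.exp x) = Real.log T₀ + x := by
    rw [Real.log_mul (by linarith) (Real.exp_pos _).ne', Real.log_exp]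
  have h3 := hb 0 v (Real.exp x) (T₀ * Real.exp x) hv (Real.one_le_exp hx0.le)
    (by nlinarith [Real.one_le_exp hx0.le]) (by
      rw [abs_zero, zero_add]
      nlinarith [Real.exp_pos x])
  rw [hT] at h3
  set ll := Real.log T₀ + x with hll
  have hll1 : 1 ≤ ll := by linarith
  have hllD : ll ≤ D * x := by
    rw [hll, hD]
    nlinarith
  have k1 : ll ^ K ≤ D ^ K * x ^ K := by
    rw [← Real.mul_rpow (by linarith) hx0.le]
    exact Real.rpow_le_rpow (by linarith) hllD (by linarith)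
  have k2 : x / (2 * D) ≤ ll ^ (δ - 1) / 2 * v := by
    have e1 : (D * x) ^ (δ - 1) ≤ ll ^ (δ - 1) :=
      Real.rpow_le_rpow_of_nonpos (by linarith) hllD (by linarith)
    have e2 : (D * x) ^ (-1 : ℝ) ≤ (D * x) ^ (δ - 1) :=
      Real.rpow_le_rpow_of_exponent_le (by nlinarith) (by linarith)
    rw [Real.rpow_neg_one] at e2
    have e3 : x / (2 * D) = (D * x)⁻¹ / 2 * v := by
      rw [← hxv]
      field_simp
    rw [e3]
    have : 0 ≤ v := by linarith
    have e4 : (D * x)⁻¹ ≤ ll ^ (δ - 1) := e2.trans e1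
    nlinarith
  have e2D : 1 / (4 * D) * x + 1 / (4 * D) * x = x / (2 * D) := by
    field_simp
    norm_num
  have k3 : Real.exp (-(ll ^ (δ - 1) / 2 * v)) ≤
      Real.exp (-(1 / (4 * D) * x)) * Real.exp (-(1 / (4 * D) * x)) := by
    rw [← Real.exp_add]
    apply Real.exp_le_exp.2
    linarith
  have k4 : Real.exp (-x) ≤ Real.exp (-(1 / (4 * D) * x)) * Real.exp (-(1 / (4 * D) * x)) := by
    rw [← Real.exp_add]
    apply Real.exp_le_exp.2
    have : x / (2 * D) ≤ x := by
      rw [div_le_iff₀ (by positivity)]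
      nlinarith
    linarith
  set q := Real.exp (-(1 / (4 * D) * x)) with hq
  have hq0 : 0 < q := Real.exp_pos _
  have hqi : Real.exp (1 / (4 * D) * x) * q = 1 := by
    rw [hq, ← Real.exp_add]
    simp
  have hp0 : 0 ≤ ll ^ K := Real.rpow_nonneg (by linarith) _
  have t1 : ll ^ K * Real.exp (-(ll ^ (δ - 1) / 2 * v)) ≤ D ^ K * C1 * q := by
    calc ll ^ K * Real.exp (-(ll ^ (δ - 1) / 2 * v)) ≤ (D ^ K * (C1 * Real.exp (1 / (4 * D) * x))) * (q * q) :=
          mul_le_mul (k1.trans (mul_le_mul_of_nonneg_left (h1 x hx1) (by positivity))) k3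
            (Real.exp_pos _).le (by positivity)
      _ = D ^ K * C1 * q * (Real.exp (1 / (4 * D) * x) * q) := by ring
      _ = D ^ K * C1 * q := by rw [hqi, mul_one]
  have t2 : ll ^ K / Real.exp x ^ 2 ≤ D ^ K * C1 * q := by
    have e1 : ll ^ K / Real.exp x ^ 2 = ll ^ K * (Real.exp (-x) * Real.exp (-x)) := by
      rw [div_eq_mul_inv, sq, mul_inv, Real.exp_neg]
    have e2 : Real.exp (-x) * Real.exp (-x) ≤ q * q := by
      have : Real.exp (-x) ≤ 1 := by
        rw [← Real.exp_zero]; exact Real.exp_le_exp.2 (by linarith)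
      calc Real.exp (-x) * Real.exp (-x) ≤ Real.exp (-x) * 1 :=
            mul_le_mul_of_nonneg_left this (Real.exp_pos _).le
        _ ≤ q * q := by rw [mul_one]; exact k4
    rw [e1]
    calc ll ^ K * (Real.exp (-x) * Real.exp (-x)) ≤ (D ^ K * (C1 * Real.exp (1 / (4 * D) * x))) * (q * q) :=
          mul_le_mul (k1.trans (mul_le_mul_of_nonneg_left (h1 x hx1) (by positivity))) e2
            (by positivity) (by positivity)
      _ = D ^ K * C1 * q * (Real.exp (1 / (4 * D) * x) * q) := by ring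
      _ = D ^ K * C1 * q := by rw [hqi, mul_one]
  have t3 : v ^ 2 / Real.exp x ≤ C2 * q := by
    have e1 : v ^ 2 / Real.exp x = x ^ (4 : ℝ) * Real.exp (-x) := by
      rw [div_eq_mul_inv, Real.exp_neg, ← hxv, ← pow_mul]
      norm_num
    rw [e1]
    calc x ^ (4 : ℝ) * Real.exp (-x) ≤ (C2 * Real.exp (1 / (4 * D) * x)) * (q * q) :=
          mul_le_mul (h2 x hx1) k4 (Real.exp_pos _).le (by positivity)
      _ = C2 * q * (Real.exp (1 / (4 * D) * x) * q) := by ring
      _ = C2 * q := by rw [hqi, mul_one]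
  calc ‖RS 0 v‖ ≤ 72 * Real.exp v * (ll ^ K * Real.exp (-(ll ^ (δ - 1) / 2 * v)) +
        ll ^ K / Real.exp x ^ 2 + v ^ 2 / Real.exp x) := h3
    _ ≤ 72 * Real.exp v * (D ^ K * C1 * q + D ^ K * C1 * q + C2 * q) := by
        apply mul_le_mul_of_nonneg_left _ (by positivity)
        linarith
    _ = 72 * (2 * (D ^ K * C1) + C2) * (Real.exp v * q) := by ring

lemma aa_zero {n : ℕ} (hn : n ≠ 0) :
    aa 0 n = ((ArithmeticFunction.vonMangoldt n - 1 : ℝ) : ℂ) := by
  unfold aa
  simp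

lemma sum_aa (N : ℕ) : ‖∑ n ∈ Finset.Icc 1 N, aa 0 n‖ = |Chebyshev.psi N - N| := by
  have h1 : ∑ n ∈ Finset.Icc 1 N, aa 0 n =
      ((∑ n ∈ Finset.Icc 1 N, (ArithmeticFunction.vonMangoldt n - 1) : ℝ) : ℂ) := by
    push_cast
    refine Finset.sum_congr rfl fun n hn => ?_
    rw [aa_zero (by have := (Finset.mem_Icc.1 hn).1; omega)]
    push_cast
    ring
  rw [h1, Complex.norm_real, Real.norm_eq_abs]
  congr 1
  rw [Finset.sum_sub_distrib]
  simp only [Finset.sum_const, Nat.card_Icc, Nat.add_sub_cancel, nsmul_eq_mul, mul_one]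
  congr 1
  unfold Chebyshev.psi
  rw [Nat.floor_natCast]
  rfl

/-- the prime number theorem with classical error, for `ψ` -/
theorem psi_err : ∃ C c : ℝ, 0 < C ∧ 0 < c ∧ c ≤ 1 / 4 ∧ ∀ N : ℕ, 1 ≤ N →
    |Chebyshev.psi N - N| ≤ C * (N * Real.exp (-(c * Real.sqrt (Real.log N)))) := by
  obtain ⟨C, c, hC, hc, hc4, hb⟩ := rs_bound
  obtain ⟨C1, hC1, h1⟩ := pow_le_exp 2 (c / 4) (by positivity)
  refine ⟨(2 * C * Real.exp 1 + 8 * C1) + 4, c / 4, by positivity, by positivity, by linarith, ?_⟩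
  intro N hN
  have hN0 : (0 : ℝ) < N := by exact_mod_cast hN
  set L := Real.log N with hL
  have hL0 : 0 ≤ L := Real.log_nonneg (by exact_mod_cast hN)
  set x := Real.sqrt L with hx
  have hx0 : 0 ≤ x := Real.sqrt_nonneg _
  have hxL : x ^ 2 = L := Real.sq_sqrt hL0
  have hexpL : Real.exp L = N := Real.exp_log hN0
  rw [← sum_aa]
  rcases le_or_gt 1 L with hL1 | hL1
  · have hx1 : 1 ≤ x := Real.one_le_sqrt.2 hL1
    set h := Real.exp (-(c / 2 * x)) with hh
    have hh0 : 0 < h := Real.exp_pos _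
    have hh1 : h ≤ 1 := by
      rw [hh, ← Real.exp_zero]
      apply Real.exp_le_exp.2
      nlinarith
    have h2 := unsmooth 0 hN hh0 hh1
    rw [← hL] at h2
    have h3 : ‖RS 0 (L + h)‖ ≤ C * (Real.exp 1 * N * (h * h)) := by
      refine (hb (L + h) (by linarith)).trans ?_
      apply mul_le_mul_of_nonneg_left _ hC.le
      have e1 : Real.exp (L + h) ≤ Real.exp 1 * N := by
        rw [Real.exp_add, hexpL, mul_comm]
        apply mul_le_mul_of_nonneg_right _ hN0.le
        exact Real.exp_le_exp.2 hh1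
      have e2 : Real.exp (-(c * Real.sqrt (L + h))) ≤ h * h := by
        rw [hh, ← Real.exp_add]
        apply Real.exp_le_exp.2
        have : x ≤ Real.sqrt (L + Real.exp (-(c / 2 * x))) := Real.sqrt_le_sqrt (by linarith)
        nlinarith
      exact mul_le_mul e1 e2 (Real.exp_pos _).le (by positivity)
    have h4 : ‖RS 0 L‖ ≤ C * (Real.exp 1 * N * (h * h)) := by
      refine (hb L hL1).trans ?_
      apply mul_le_mul_of_nonneg_left _ hC.le
      have e1 : Real.exp L ≤ Real.exp 1 * N := by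
        rw [hexpL]
        nlinarith [Real.add_one_le_exp (1 : ℝ)]
      have e2 : Real.exp (-(c * x)) ≤ h * h := by
        rw [hh, ← Real.exp_add]
        apply Real.exp_le_exp.2
        linarith
      exact mul_le_mul e1 e2 (Real.exp_pos _).le (by positivity)
    have h5 : (‖RS 0 (L + h)‖ + ‖RS 0 L‖) / h ≤ 2 * C * Real.exp 1 * N * h := by
      rw [div_le_iff₀ hh0]
      calc ‖RS 0 (L + h)‖ + ‖RS 0 L‖ ≤ C * (Real.exp 1 * N * (h * h)) + C * (Real.exp 1 * N * (h * h)) :=
            add_le_add h3 h4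
        _ = _ := by ring
    -- `h ≤ h4 := exp (-(c/4) x)`, `h = q * q`
    set q := Real.exp (-(c / 4 * x)) with hq
    have hq0 : 0 < q := Real.exp_pos _
    have hqq : h = q * q := by
      rw [hh, hq, ← Real.exp_add]
      congr 1
      ring
    have hq1 : q ≤ 1 := by
      rw [hq, ← Real.exp_zero]
      apply Real.exp_le_exp.2
      nlinarith
    have hqi : Real.exp (c / 4 * x) * q = 1 := by
      rw [hq, ← Real.exp_add]
      simp
    have h6 : L + 3 ≤ 4 * (C1 * Real.exp (c / 4 * x)) := by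
      have := h1 x hx1
      rw [Real.rpow_two, hxL] at this
      linarith
    have h7 : 2 * h * N * (L + 3) ≤ 8 * C1 * N * q := by
      calc 2 * h * N * (L + 3) ≤ 2 * h * N * (4 * (C1 * Real.exp (c / 4 * x))) :=
            mul_le_mul_of_nonneg_left h6 (by positivity)
        _ = 8 * C1 * N * q * (Real.exp (c / 4 * x) * q) := by rw [hqq]; ring
        _ = 8 * C1 * N * q := by rw [hqi, mul_one]
    have h8 : 2 * C * Real.exp 1 * N * h ≤ 2 * C * Real.exp 1 * N * q := by
      apply mul_le_mul_of_nonneg_left _ (by positivity)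
      rw [hqq]
      nlinarith
    have h9 : 0 ≤ 4 * ((N : ℝ) * q) := by positivity
    calc ‖∑ n ∈ Finset.Icc 1 N, aa 0 n‖ ≤ (‖RS 0 (L + h)‖ + ‖RS 0 L‖) / h + 2 * h * N * (L + 3) := h2
      _ ≤ 2 * C * Real.exp 1 * N * q + 8 * C1 * N * q := by linarith
      _ ≤ ((2 * C * Real.exp 1 + 8 * C1) + 4) * (N * q) := by
          have : ((2 * C * Real.exp 1 + 8 * C1) + 4) * ((N : ℝ) * q) =
            2 * C * Real.exp 1 * N * q + 8 * C1 * N * q + 4 * ((N : ℝ) * q) := by ring
          rw [this]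
          linarith
  · have hx1 : x ≤ 1 := by
      rw [hx]
      calc Real.sqrt L ≤ Real.sqrt 1 := Real.sqrt_le_sqrt hL1.le
        _ = 1 := Real.sqrt_one
    have h2 : ‖∑ n ∈ Finset.Icc 1 N, aa 0 n‖ ≤ N * 2 := by
      calc ‖∑ n ∈ Finset.Icc 1 N, aa 0 n‖ ≤ ∑ n ∈ Finset.Icc 1 N, (2 : ℝ) := by
            refine norm_sum_le_of_le _ fun n hn => ?_
            rw [Finset.mem_Icc] at hn
            refine (aa_norm 0 (by omega)).trans ?_
            have hn0 : (0 : ℝ) < n := by exact_mod_cast hn.1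
            have : Real.log n ≤ L := Real.log_le_log hn0 (by exact_mod_cast hn.2)
            linarith
        _ = N * 2 := by simp
    have h3 : 1 / 2 ≤ Real.exp (-(c / 4 * x)) := by
      have := Real.add_one_le_exp (-(c / 4 * x))
      nlinarith
    have h4 : 0 ≤ (2 * C * Real.exp 1 + 8 * C1) * ((N : ℝ) * Real.exp (-(c / 4 * x))) := by positivity
    calc ‖∑ n ∈ Finset.Icc 1 N, aa 0 n‖ ≤ N * 2 := h2
      _ ≤ 4 * (N * Real.exp (-(c / 4 * x))) := by nlinarith
      _ ≤ _ := by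
          rw [add_mul]
          linarith

/-- the prime number theorem with classical error, for `θ` -/
theorem theta_err : ∃ C c : ℝ, 0 < C ∧ 0 < c ∧ c ≤ 1 / 4 ∧ ∀ N : ℕ, 1 ≤ N →
    |Chebyshev.theta N - N| ≤ C * (N * Real.exp (-(c * Real.sqrt (Real.log N)))) := by
  obtain ⟨C, c, hC, hc, hc4, hb⟩ := psi_err
  refine ⟨C + 8 * Real.exp 1, c, by positivity, hc, hc4, fun N hN => ?_⟩
  have hN0 : (0 : ℝ) < N := by exact_mod_cast hN
  have hN1 : (1 : ℝ) ≤ N := by exact_mod_cast hN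
  set L := Real.log N with hL
  have hL0 : 0 ≤ L := Real.log_nonneg (by exact_mod_cast hN)
  have h1 := Chebyshev.abs_psi_sub_theta_le_sqrt_mul_log hN1
  have h2 := hb N hN
  have h3 : |Chebyshev.theta N - N| ≤ |Chebyshev.psi N - N| + |Chebyshev.psi N - Chebyshev.theta N| := by
    have : Chebyshev.theta N - N = (Chebyshev.psi N - N) - (Chebyshev.psi N - Chebyshev.theta N) := by
      ring
    rw [this]
    exact abs_sub _ _
  have h4 : 2 * Real.sqrt N * L ≤ 8 * Real.exp 1 * (N * Real.exp (-(c * Real.sqrt L))) := by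
    have e1 : Real.sqrt N = Real.exp (L / 2) := by
      rw [← Real.exp_log (Real.sqrt_pos.2 hN0), Real.log_sqrt hN0.le]
    have e2 : (N : ℝ) = Real.exp L := (Real.exp_log hN0).symm
    have e3 : L ≤ 4 * Real.exp (L / 4) := by
      have := Real.add_one_le_exp (L / 4)
      linarith
    have e4 : Real.sqrt L ≤ 1 + L := by
      rw [Real.sqrt_le_left (by linarith)]
      nlinarith
    have e5 : Real.exp (L / 2) * Real.exp (L / 4) ≤ Real.exp 1 * (Real.exp L * Real.exp (-(c * Real.sqrt L))) := by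
      rw [← Real.exp_add, ← Real.exp_add, ← Real.exp_add]
      apply Real.exp_le_exp.2
      have : c * Real.sqrt L ≤ 1 / 4 * (1 + L) :=
        mul_le_mul hc4 e4 (Real.sqrt_nonneg _) (by norm_num)
      linarith
    rw [e1]
    calc 2 * Real.exp (L / 2) * L ≤ 2 * Real.exp (L / 2) * (4 * Real.exp (L / 4)) :=
          mul_le_mul_of_nonneg_left e3 (by positivity)
      _ = 8 * (Real.exp (L / 2) * Real.exp (L / 4)) := by ring
      _ ≤ 8 * (Real.exp 1 * (Real.exp L * Real.exp (-(c * Real.sqrt L)))) :=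
          mul_le_mul_of_nonneg_left e5 (by norm_num)
      _ = _ := by rw [← e2]; ring
  calc |Chebyshev.theta N - N| ≤ _ := h3
    _ ≤ C * (N * Real.exp (-(c * Real.sqrt L))) + 8 * Real.exp 1 * (N * Real.exp (-(c * Real.sqrt L))) :=
        add_le_add h2 (h1.trans h4)
    _ = _ := by ring

end

end Pool.Agent.Q129.EW.PE
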