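import Mathlib
import Pool.Agent.Q80.EW.Stm
import Pool.Agent.Q129.EW.PntErr

set_option autoImplicit false

/-!
Lemma job PS of project EW (helper80): prime sums with a twist.
-/

namespace Pool.Agent.Q129.EW.PS

open Pool.Agent.Q80.EW (J_PS)
open Pool.Agent.Q129.EW.PE (theta_err pow_le_exp)

noncomputable section

/-- summation by parts -/
lemma abel (G f : ℕ → ℂ) (a b : ℕ) (hab : a ≤ b) :
    ∑ n ∈ Finset.Ico a b, (G (n + 1) - G n) * f n =
      G b * f b - G a * f a - ∑ n ∈ Finset.Ico a b, G (n + 1) * (f (n + 1) - f n) := by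
  induction b, hab using Nat.le_induction with
  | base => simp
  | succ k hk ih =>
    rw [Finset.sum_Ico_succ_top hk, Finset.sum_Ico_succ_top hk, ih]
    ring

/-- telescoping -/
lemma tele (w : ℕ → ℝ) (a b : ℕ) (hab : a ≤ b) :
    ∑ n ∈ Finset.Ico a b, (w n - w (n + 1)) = w a - w b := by
  induction b, hab using Nat.le_induction with
  | base => simp
  | succ k hk ih =>
    rw [Finset.sum_Ico_succ_top hk, ih]
    ring

/-- `n^{-ih}` -/
def g (h : ℝ) (n : ℕ) : ℂ := Complex.exp (-((h * Real.log n : ℝ) : ℂ) * Complex.I)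

lemma norm_g (h : ℝ) (n : ℕ) : ‖g h n‖ = 1 := by
  unfold g
  rw [show -((h * Real.log n : ℝ) : ℂ) * Complex.I = ((-(h * Real.log n) : ℝ) : ℂ) * Complex.I by
    push_cast; ring]
  exact Complex.norm_exp_ofReal_mul_I _

lemma g_eq (h : ℝ) {n : ℕ} (hn : 1 ≤ n) :
    (n : ℂ) ^ (-((1 : ℂ) + (h : ℂ) * Complex.I)) = g h n * ((1 / (n : ℝ) : ℝ) : ℂ) := by
  have hnc : (n : ℂ) ≠ 0 := by exact_mod_cast (by omega : n ≠ 0)
  rw [neg_add, Complex.cpow_add _ _ hnc, Complex.cpow_neg_one, Complex.cpow_def_of_ne_zero hnc,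
    ← Complex.natCast_log]
  unfold g
  push_cast
  rw [mul_comm, one_div]
  congr 2
  ring

/-- `log (1 + 1/n)` -/
def om (n : ℕ) : ℝ := Real.log (n + 1 : ℕ) - Real.log n

lemma om_bd {n : ℕ} (hn : 1 ≤ n) :
    0 ≤ om n ∧ om n ≤ 1 / (n : ℝ) ∧ 1 / (n : ℝ) - 1 / (n : ℝ) ^ 2 ≤ om n := by
  have hn0 : (0 : ℝ) < n := by exact_mod_cast hn
  have h1 : om n = Real.log (1 + 1 / (n : ℝ)) := by
    unfold om
    rw [← Real.log_div (by positivity) hn0.ne']
    congr 1
    push_cast
    field_simp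
  have h2 : Real.log (1 + 1 / (n : ℝ)) ≤ 1 / n := by
    have := Real.log_le_sub_one_of_pos (show (0 : ℝ) < 1 + 1 / n by positivity)
    linarith
  have h3 : 1 / ((n : ℝ) + 1) ≤ Real.log (1 + 1 / (n : ℝ)) := by
    have := Real.one_sub_inv_le_log_of_pos (show (0 : ℝ) < 1 + 1 / n by positivity)
    refine le_trans (le_of_eq ?_) this
    field_simp
    ring
  have h4 : 1 / (n : ℝ) - 1 / (n : ℝ) ^ 2 ≤ 1 / ((n : ℝ) + 1) := by
    rw [div_sub_div _ _ hn0.ne' (by positivity), div_le_div_iff₀ (by positivity) (by positivity)]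
    nlinarith [pow_pos hn0 2, pow_pos hn0 3]
  rw [h1]
  refine ⟨le_trans (by positivity) h3, h2, h4.trans h3⟩

lemma exp_two (x : ℝ) : ‖Complex.exp (-(x : ℂ) * Complex.I) - 1 + (x : ℂ) * Complex.I‖ ≤ 3 * x ^ 2 := by
  rcases le_or_gt |x| 1 with h | h
  · have h1 := Complex.norm_exp_sub_one_sub_id_le (x := -(x : ℂ) * Complex.I) (by simpa using h)
    have h2 : Complex.exp (-(x : ℂ) * Complex.I) - 1 - -(x : ℂ) * Complex.I =
        Complex.exp (-(x : ℂ) * Complex.I) - 1 + (x : ℂ) * Complex.I := by ring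
    rw [h2] at h1
    refine h1.trans ?_
    simp only [norm_mul, norm_neg, Complex.norm_real, Complex.norm_I, mul_one, Real.norm_eq_abs, sq_abs]
    nlinarith [sq_nonneg x]
  · have h1 : ‖Complex.exp (-(x : ℂ) * Complex.I)‖ = 1 := by
      rw [show -(x : ℂ) * Complex.I = ((-x : ℝ) : ℂ) * Complex.I by push_cast; ring]
      exact Complex.norm_exp_ofReal_mul_I _
    calc ‖Complex.exp (-(x : ℂ) * Complex.I) - 1 + (x : ℂ) * Complex.I‖
        ≤ ‖Complex.exp (-(x : ℂ) * Complex.I)‖ + ‖(1 : ℂ)‖ + ‖(x : ℂ) * Complex.I‖ := by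
          refine (norm_add_le _ _).trans ?_
          gcongr
          exact norm_sub_le _ _
      _ = 2 + |x| := by
          rw [h1]
          simp
          norm_num
      _ ≤ 3 * x ^ 2 := by
          rw [← sq_abs]
          nlinarith

lemma g_succ (h : ℝ) (n : ℕ) :
    g h (n + 1) = g h n * Complex.exp (-((h * om n : ℝ) : ℂ) * Complex.I) := by
  unfold g om
  rw [← Complex.exp_add]
  congr 1
  push_cast
  ring

lemma g_diff (h : ℝ) {n : ℕ} (hn : 1 ≤ n) : ‖g h (n + 1) - g h n‖ ≤ |h| / n := by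
  obtain ⟨h0, h1, _⟩ := om_bd hn
  have h2 : g h (n + 1) - g h n = g h n * (Complex.exp (((-(h * om n) : ℝ) : ℂ) * Complex.I) - 1) := by
    rw [g_succ]
    push_cast
    ring
  rw [h2, norm_mul, norm_g, one_mul]
  have h3 := Real.norm_exp_I_mul_ofReal_sub_one_le (x := -(h * om n))
  rw [mul_comm Complex.I] at h3
  refine h3.trans ?_
  rw [Real.norm_eq_abs, abs_neg, abs_mul, abs_of_nonneg h0, div_eq_mul_one_div]
  exact mul_le_mul_of_nonneg_left h1 (abs_nonneg _)

/-- `n^{-1-ih}` is nearly a difference -/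
lemma near_diff {h : ℝ} (hh : h ≠ 0) {n : ℕ} (hn : 1 ≤ n) :
    ‖g h n * ((1 / (n : ℝ) : ℝ) : ℂ) - (g h n - g h (n + 1)) / ((h : ℂ) * Complex.I)‖ ≤
      3 * (1 + |h|) / (n : ℝ) ^ 2 := by
  obtain ⟨h0, h1, h2⟩ := om_bd hn
  have hn0 : (0 : ℝ) < n := by exact_mod_cast hn
  have hhc : (h : ℂ) ≠ 0 := by exact_mod_cast hh
  set w := om n with hw
  set E := Complex.exp (-((h * w : ℝ) : ℂ) * Complex.I) - 1 + ((h * w : ℝ) : ℂ) * Complex.I with hE
  have hEn : ‖E‖ ≤ 3 * (h * w) ^ 2 := exp_two _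
  have h3 : g h n * ((1 / (n : ℝ) : ℝ) : ℂ) - (g h n - g h (n + 1)) / ((h : ℂ) * Complex.I) =
      g h n * (((1 / (n : ℝ) - w : ℝ) : ℂ) + E / ((h : ℂ) * Complex.I)) := by
    rw [g_succ, ← hw, hE]
    push_cast
    have hI := Complex.I_ne_zero
    have : Complex.I ^ 2 = -1 := Complex.I_sq
    field_simp
    ring
  rw [h3, norm_mul, norm_g, one_mul]
  have h4 : ‖((1 / (n : ℝ) - w : ℝ) : ℂ)‖ ≤ 1 / (n : ℝ) ^ 2 := by
    rw [Complex.norm_real, Real.norm_eq_abs, abs_of_nonneg (by linarith)]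
    linarith
  have hha : 0 < |h| := abs_pos.2 hh
  have h5 : ‖E / ((h : ℂ) * Complex.I)‖ ≤ 3 * |h| / (n : ℝ) ^ 2 := by
    rw [norm_div, norm_mul, Complex.norm_I, mul_one, Complex.norm_real, Real.norm_eq_abs,
      div_le_iff₀ hha]
    refine hEn.trans ?_
    have : (h * w) ^ 2 ≤ |h| ^ 2 * (1 / (n : ℝ)) ^ 2 := by
      rw [mul_pow, sq_abs]
      exact mul_le_mul_of_nonneg_left (pow_le_pow_left₀ h0 h1 2) (sq_nonneg _)
    calc 3 * (h * w) ^ 2 ≤ 3 * (|h| ^ 2 * (1 / (n : ℝ)) ^ 2) := by linarith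
      _ = 3 * |h| / (n : ℝ) ^ 2 * |h| := by
          field_simp
  calc ‖((1 / (n : ℝ) - w : ℝ) : ℂ) + E / ((h : ℂ) * Complex.I)‖ ≤ 1 / (n : ℝ) ^ 2 + 3 * |h| / (n : ℝ) ^ 2 :=
        (norm_add_le _ _).trans (add_le_add h4 h5)
    _ = (1 + 3 * |h|) / (n : ℝ) ^ 2 := by ring
    _ ≤ _ := by
        apply div_le_div_of_nonneg_right _ (by positivity)
        linarith

/-! ### weights -/

/-- `1 / log n` -/
def w (n : ℕ) : ℝ := 1 / Real.log n

/-- `1 / (n log n)` -/
def u (n : ℕ) : ℝ := 1 / ((n : ℝ) * Real.log n)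

lemma log2 : (1 / 2 : ℝ) < Real.log 2 := by
  have := Real.log_two_gt_d9
  linarith

lemma logn {n : ℕ} (hn : 2 ≤ n) : 1 / 2 < Real.log n := by
  refine lt_of_lt_of_le log2 (Real.log_le_log (by norm_num) (by exact_mod_cast hn))

lemma w_anti {n : ℕ} (hn : 2 ≤ n) : w (n + 1) ≤ w n := by
  unfold w
  have h1 := logn hn
  apply one_div_le_one_div_of_le (by linarith)
  exact Real.log_le_log (by positivity) (by push_cast; linarith)

lemma w_nonneg (n : ℕ) : 0 ≤ w n := by
  unfold w
  have := Real.log_natCast_nonneg n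
  positivity

lemma w_le {n : ℕ} (hn : 2 ≤ n) : w n ≤ 2 := by
  unfold w
  have h1 := logn hn
  rw [div_le_iff₀ (by linarith)]
  linarith

lemma w_mono {a b : ℕ} (ha : 2 ≤ a) (hab : a ≤ b) : w b ≤ w a := by
  unfold w
  have h1 := logn ha
  apply one_div_le_one_div_of_le (by linarith)
  exact Real.log_le_log (by positivity) (by exact_mod_cast hab)

lemma u_eq (n : ℕ) : u n = 1 / (n : ℝ) * w n := by
  unfold u w
  rw [one_div_mul_one_div]

/-- `1/(n log^2 n)` telescopes -/
lemma tel_log {n : ℕ} (hn : 2 ≤ n) : u n * w n ≤ 6 * (w n - w (n + 1)) := by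
  have hn0 : (0 : ℝ) < n := by positivity
  have hn2 : (2 : ℝ) ≤ n := by exact_mod_cast hn
  have h1 := logn hn
  obtain ⟨h2, h3, h4⟩ := om_bd (by omega : 1 ≤ n)
  unfold u w
  set L := Real.log n with hL
  have e1 : Real.log ((n + 1 : ℕ) : ℝ) = L + om n := by unfold om; ring
  rw [e1]
  have hL1 : 0 < L + om n := by linarith
  have h5 : 1 / L - 1 / (L + om n) = om n / (L * (L + om n)) := by
    field_simp
    ring
  rw [h5]
  have h6 : 1 / (2 * (n : ℝ)) ≤ om n := by
    refine le_trans ?_ h4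
    rw [div_sub_div _ _ hn0.ne' (by positivity), div_le_div_iff₀ (by positivity) (by positivity)]
    nlinarith [pow_pos hn0 2, pow_pos hn0 3]
  have h7 : om n ≤ 1 / 2 := h3.trans (by
    rw [div_le_div_iff₀ hn0 (by norm_num)]
    linarith)
  have h8 : 1 / ((n : ℝ) * L) * (1 / L) = 1 / (n : ℝ) / (L * L) := by
    field_simp
  rw [h8, ← mul_div_assoc, div_le_div_iff₀ (by positivity) (by positivity)]
  have h9 : 1 / (n : ℝ) ≤ 2 * om n := by
    have : 1 / (2 * (n : ℝ)) = 1 / (n : ℝ) / 2 := by field_simp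
    linarith
  have h10 : L + om n ≤ 3 * L := by linarith
  calc 1 / (n : ℝ) * (L * (L + om n)) ≤ (2 * om n) * (L * (3 * L)) :=
        mul_le_mul h9 (mul_le_mul_of_nonneg_left h10 (by linarith)) (by positivity) (by positivity)
    _ = 6 * om n * (L * L) := by ring

/-- differences of `u` -/
lemma u_diff {n : ℕ} (hn : 2 ≤ n) : 0 ≤ u n - u (n + 1) ∧ (n : ℝ) * (u n - u (n + 1)) ≤ 3 * u n := by
  have hn0 : (0 : ℝ) < n := by positivity
  have hn2 : (2 : ℝ) ≤ n := by exact_mod_cast hn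
  have h1 := logn hn
  obtain ⟨h2, h3, h4⟩ := om_bd (by omega : 1 ≤ n)
  unfold u
  set L := Real.log n with hL
  have e1 : Real.log ((n + 1 : ℕ) : ℝ) = L + om n := by unfold om; ring
  rw [e1]
  push_cast
  have hL1 : 0 < L + om n := by linarith
  constructor
  · rw [sub_nonneg]
    apply one_div_le_one_div_of_le (by positivity)
    nlinarith
  · have h5 : 1 / ((n : ℝ) * L) - 1 / (((n : ℝ) + 1) * (L + om n)) =
        (((n : ℝ) + 1) * (L + om n) - n * L) / ((n : ℝ) * L * (((n : ℝ) + 1) * (L + om n))) := by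
      field_simp
    have h6 : (((n : ℝ) + 1) * (L + om n) - n * L) ≤ 3 * (L + om n) := by
      have : n * om n ≤ 1 := by
        calc n * om n ≤ n * (1 / n) := mul_le_mul_of_nonneg_left h3 hn0.le
          _ = 1 := by field_simp
      nlinarith
    rw [h5]
    calc (n : ℝ) * ((((n : ℝ) + 1) * (L + om n) - n * L) / ((n : ℝ) * L * (((n : ℝ) + 1) * (L + om n))))
        ≤ (n : ℝ) * ((3 * (L + om n)) / ((n : ℝ) * L * (((n : ℝ) + 1) * (L + om n)))) := by
          apply mul_le_mul_of_nonneg_left _ hn0.le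
          exact div_le_div_of_nonneg_right h6 (by positivity)
      _ = 3 * (1 / (((n : ℝ) + 1) * L)) := by
          field_simp
      _ ≤ 3 * (1 / ((n : ℝ) * L)) := by
          apply mul_le_mul_of_nonneg_left _ (by norm_num)
          apply one_div_le_one_div_of_le (by positivity)
          nlinarith

/-! ### the error function -/

/-- `exp (-c √(log n))` -/
def ep (c : ℝ) (n : ℕ) : ℝ := Real.exp (-(c * Real.sqrt (Real.log n)))

lemma ep_pos (c : ℝ) (n : ℕ) : 0 < ep c n := Real.exp_pos _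

lemma ep_le_one {c : ℝ} (hc : 0 < c) (n : ℕ) : ep c n ≤ 1 := by
  unfold ep
  rw [← Real.exp_zero]
  apply Real.exp_le_exp.2
  have := Real.sqrt_nonneg (Real.log n)
  nlinarith

lemma ep_anti {c : ℝ} (hc : 0 < c) {a b : ℕ} (ha : 1 ≤ a) (hab : a ≤ b) : ep c b ≤ ep c a := by
  unfold ep
  apply Real.exp_le_exp.2
  have h1 : Real.log a ≤ Real.log b := Real.log_le_log (by exact_mod_cast ha) (by exact_mod_cast hab)
  have := Real.sqrt_le_sqrt h1
  nlinarith

/-- `1/n` is smaller -/
lemma inv_le {c : ℝ} (hc : 0 < c) (hc4 : c ≤ 1 / 4) {n : ℕ} (hn : 1 ≤ n) :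
    1 / (n : ℝ) ≤ 3 * ep c n := by
  have hn0 : (0 : ℝ) < n := by exact_mod_cast hn
  have hL0 : 0 ≤ Real.log n := Real.log_nonneg (by exact_mod_cast hn)
  have h1 : 1 / (n : ℝ) = Real.exp (-Real.log n) := by
    rw [Real.exp_neg, Real.exp_log hn0, one_div]
  have h2 : Real.sqrt (Real.log n) ≤ 1 + Real.log n := by
    rw [Real.sqrt_le_left (by linarith)]
    nlinarith
  have h3 : c * Real.sqrt (Real.log n) ≤ 1 / 4 * (1 + Real.log n) :=
    mul_le_mul hc4 h2 (Real.sqrt_nonneg _) (by norm_num)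
  rw [h1]
  unfold ep
  calc Real.exp (-Real.log n) ≤ Real.exp (1 + -(c * Real.sqrt (Real.log n))) := by
        apply Real.exp_le_exp.2
        linarith
    _ = Real.exp 1 * Real.exp (-(c * Real.sqrt (Real.log n))) := Real.exp_add _ _
    _ ≤ 3 * Real.exp (-(c * Real.sqrt (Real.log n))) := by
        apply mul_le_mul_of_nonneg_right _ (Real.exp_pos _).le
        linarith [Real.exp_one_lt_d9]

/-- the sum of `ep n / (n log n)` -/
lemma sum_ep {c : ℝ} (hc : 0 < c) : ∃ C : ℝ, 0 < C ∧ ∀ a b : ℕ, 2 ≤ a → a ≤ b →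
    ∑ n ∈ Finset.Ico a b, ep c n * u n ≤ C * ep (c / 2) a := by
  obtain ⟨C, hC, h⟩ := pow_le_exp 2 (c / 2) (by positivity)
  -- `√L ≥ 1/√2`; treat `√L < 1` separately
  refine ⟨12 * (C + 2), by positivity, fun a b ha hab => ?_⟩
  have h1 : ∀ n ∈ Finset.Ico a b, ep c n * u n ≤ ep (c / 2) a * ((C + 2) * (6 * (w n - w (n + 1)))) := by
    intro n hn
    rw [Finset.mem_Ico] at hn
    have hn2 : 2 ≤ n := ha.trans hn.1
    have hL := logn hn2
    have e1 : ep c n = ep (c / 2) n * ep (c / 2) n := by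
      unfold ep
      rw [← Real.exp_add]
      congr 1
      ring
    have e2 : ep (c / 2) n ≤ (C + 2) * w n := by
      unfold w
      rw [mul_one_div, le_div_iff₀ (by linarith)]
      set x := Real.sqrt (Real.log n) with hx
      have hx2 : x ^ 2 = Real.log n := Real.sq_sqrt (by linarith)
      rw [← hx2]
      rcases le_or_gt 1 x with h2 | h2
      · have h3 := h x h2
        rw [Real.rpow_two] at h3
        have h4 : Real.exp (c / 2 * x) * ep (c / 2) n = 1 := by
          unfold ep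
          rw [← Real.exp_add]
          simp [hx]
        calc ep (c / 2) n * x ^ 2 ≤ ep (c / 2) n * (C * Real.exp (c / 2 * x)) :=
              mul_le_mul_of_nonneg_left h3 (ep_pos _ _).le
          _ = C * (Real.exp (c / 2 * x) * ep (c / 2) n) := by ring
          _ ≤ C + 2 := by rw [h4]; linarith
      · have hx0 : 0 ≤ x := Real.sqrt_nonneg _
        have h3 : x ^ 2 ≤ 1 := by nlinarith
        have h4 := ep_le_one (show 0 < c / 2 by positivity) n
        have h5 := (ep_pos (c / 2) n)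
        nlinarith
    have e3 : ep (c / 2) n ≤ ep (c / 2) a := ep_anti (by positivity) (by omega) hn.1
    have hu0 : 0 ≤ u n := by
      unfold u
      positivity
    have hw0 := w_nonneg n
    calc ep c n * u n = ep (c / 2) n * (ep (c / 2) n * u n) := by rw [e1]; ring
      _ ≤ ep (c / 2) a * (((C + 2) * w n) * u n) :=
          mul_le_mul e3 (mul_le_mul_of_nonneg_right e2 hu0) (mul_nonneg (ep_pos _ _).le hu0) (ep_pos _ _).le
      _ = ep (c / 2) a * ((C + 2) * (u n * w n)) := by ring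
      _ ≤ ep (c / 2) a * ((C + 2) * (6 * (w n - w (n + 1)))) := by
          apply mul_le_mul_of_nonneg_left _ (ep_pos _ _).le
          exact mul_le_mul_of_nonneg_left (tel_log hn2) (by positivity)
  refine (Finset.sum_le_sum h1).trans ?_
  rw [← Finset.mul_sum, ← Finset.mul_sum, ← Finset.mul_sum, tele w a b hab]
  have h2 := w_le ha
  have h3 := w_nonneg b
  have h4 := ep_pos (c / 2) a
  calc ep (c / 2) a * ((C + 2) * (6 * (w a - w b))) ≤ ep (c / 2) a * ((C + 2) * (6 * 2)) := by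
        apply mul_le_mul_of_nonneg_left _ h4.le
        apply mul_le_mul_of_nonneg_left _ (by positivity)
        linarith
    _ = _ := by ring

/-! ### the primes -/

/-- `∑_{p < n} log p - (n - 1)` -/
def G (n : ℕ) : ℝ := Chebyshev.theta ((n - 1 : ℕ) : ℝ) - ((n - 1 : ℕ) : ℝ)

lemma G_succ {n : ℕ} (hn : 1 ≤ n) : G (n + 1) - G n = (if n.Prime then Real.log n else 0) - 1 := by
  unfold G
  obtain ⟨m, rfl⟩ : ∃ m, n = m + 1 := ⟨n - 1, by omega⟩
  simp only [Nat.add_sub_cancel]
  have h1 : Chebyshev.theta ((m + 1 : ℕ) : ℝ) - Chebyshev.theta (m : ℝ) =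
      if (m + 1).Prime then Real.log ((m + 1 : ℕ) : ℝ) else 0 := by
    unfold Chebyshev.theta
    rw [Nat.floor_natCast, Nat.floor_natCast, Finset.sum_filter, Finset.sum_filter,
      Finset.sum_Ioc_succ_top (Nat.zero_le m)]
    simp
  push_cast at h1 ⊢
  linarith

lemma G_bd : ∃ C c : ℝ, 0 < C ∧ 0 < c ∧ c ≤ 1 / 4 ∧ ∀ n : ℕ, 2 ≤ n →
    |G n| ≤ C * (n * ep c n) ∧ |G (n + 1)| ≤ C * (n * ep c n) := by
  obtain ⟨C, c, hC, hc, hc4, h⟩ := theta_err
  obtain ⟨C1, hC1, h1⟩ := pow_le_exp 1 (1 / 2) (by positivity)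
  refine ⟨C + (2 + C1) * 30, c, by positivity, hc, hc4, fun n hn => ?_⟩
  have hn0 : (0 : ℝ) < n := by positivity
  have e1 : |G (n + 1)| ≤ C * (n * ep c n) := h n (by omega)
  refine ⟨?_, e1.trans (mul_le_mul_of_nonneg_right (by linarith [show 0 ≤ (2 + C1) * 30 by positivity])
    (mul_nonneg hn0.le (ep_pos _ _).le))⟩
  have e2 := G_succ (by omega : 1 ≤ n)
  have hL := logn hn
  have e3 : |G n| ≤ |G (n + 1)| + (Real.log n + 1) := by
    have : G n = G (n + 1) - ((if n.Prime then Real.log n else 0) - 1) := by linarith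
    rw [this]
    refine (abs_sub _ _).trans ?_
    gcongr
    split_ifs
    · rw [abs_le]; constructor <;> linarith
    · simp; linarith
  have e4 : Real.log n + 1 ≤ (2 + C1) * 30 * (n * ep c n) := by
    -- `n ep n ≥ √n / 3`-like
    set L := Real.log n with hLd
    have f1 : (n : ℝ) = Real.exp L := (Real.exp_log hn0).symm
    have f2 : Real.sqrt L ≤ 1 + L := by
      rw [Real.sqrt_le_left (by linarith)]
      nlinarith
    have f3 : c * Real.sqrt L ≤ 1 / 4 * (1 + L) :=
      mul_le_mul hc4 f2 (Real.sqrt_nonneg _) (by norm_num)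
    have f4 : Real.exp (L / 2) ≤ 3 * ((n : ℝ) * ep c n) := by
      unfold ep
      rw [← hLd, f1, ← Real.exp_add]
      calc Real.exp (L / 2) ≤ Real.exp (1 + (L + -(c * Real.sqrt L))) := by
            apply Real.exp_le_exp.2
            linarith
        _ = Real.exp 1 * Real.exp (L + -(c * Real.sqrt L)) := Real.exp_add _ _
        _ ≤ _ := by
            apply mul_le_mul_of_nonneg_right _ (Real.exp_pos _).le
            linarith [Real.exp_one_lt_d9]
    have f5 : L + 1 ≤ 2 * Real.exp (L / 2) := by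
      have := Real.add_one_le_exp (L / 2)
      linarith
    have f6 : 0 ≤ (n : ℝ) * ep c n := mul_nonneg hn0.le (ep_pos _ _).le
    nlinarith
  calc |G n| ≤ C * (n * ep c n) + (2 + C1) * 30 * (n * ep c n) := e3.trans (add_le_add e1 e4)
    _ = _ := by ring

theorem t_PS : J_PS := by
  obtain ⟨C, c, hC, hc, hc4, hG⟩ := G_bd
  obtain ⟨C2, hC2, hS⟩ := sum_ep hc
  refine ⟨4 * C + 4 * C * C2 + 40, c / 2, by positivity, by positivity, ?_⟩
  intro h hh a b ha hab
  have hha : 0 < |h| := abs_pos.2 hh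
  have hb2 : 2 ≤ b := ha.trans hab
  -- the weights
  set f : ℕ → ℂ := fun n => g h n * ((u n : ℝ) : ℂ) with hf
  have hu0 : ∀ n, 0 ≤ u n := fun n => by
    unfold u
    have := Real.log_natCast_nonneg n
    positivity
  have hfn : ∀ n, ‖f n‖ = u n := fun n => by
    rw [hf]
    simp only [norm_mul, norm_g, Complex.norm_real, Real.norm_eq_abs, abs_of_nonneg (hu0 n), one_mul]
  -- decomposition
  have hdec : ∑ p ∈ (Finset.Ico a b).filter Nat.Prime, (p : ℂ) ^ (-((1 : ℂ) + (h : ℂ) * Complex.I)) =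
      ∑ n ∈ Finset.Ico a b, (((G (n + 1) : ℝ) : ℂ) - ((G n : ℝ) : ℂ)) * f n +
        ∑ n ∈ Finset.Ico a b, f n := by
    rw [Finset.sum_filter, ← Finset.sum_add_distrib]
    refine Finset.sum_congr rfl fun n hn => ?_
    rw [Finset.mem_Ico] at hn
    have hn2 : 2 ≤ n := ha.trans hn.1
    have hL := logn hn2
    have hn0 : (0 : ℝ) < n := by positivity
    rw [← Complex.ofReal_sub, G_succ (by omega), g_eq h (by omega)]
    rw [hf]
    split_ifs with hp
    · have : Real.log n * u n = 1 / (n : ℝ) := by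
        unfold u
        have : Real.log n ≠ 0 := by linarith
        field_simp
      rw [← this]
      push_cast
      ring
    · push_cast
      ring
  -- first sum
  have hA : ‖∑ n ∈ Finset.Ico a b, (((G (n + 1) : ℝ) : ℂ) - ((G n : ℝ) : ℂ)) * f n‖ ≤
      (4 * C + 4 * C * C2) * (1 + |h|) * ep (c / 2) a := by
    rw [abel (fun n => ((G n : ℝ) : ℂ)) f a b hab]
    have hnorm : ∀ n, 2 ≤ n → ‖((G n : ℝ) : ℂ) * f n‖ ≤ 2 * C * ep (c / 2) n := by
      intro n hn
      have hn0 : (0 : ℝ) < n := by positivity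
      rw [norm_mul, hfn, Complex.norm_real, Real.norm_eq_abs]
      have h1 := (hG n hn).1
      have h2 := w_le hn
      have h3 := w_nonneg n
      have h4 : ep c n ≤ ep (c / 2) n := by
        unfold ep
        apply Real.exp_le_exp.2
        have := Real.sqrt_nonneg (Real.log n)
        nlinarith
      calc |G n| * u n ≤ (C * (n * ep c n)) * u n := mul_le_mul_of_nonneg_right h1 (hu0 n)
        _ = C * ep c n * w n := by
            rw [u_eq]
            field_simp
        _ ≤ C * ep (c / 2) n * 2 := mul_le_mul (mul_le_mul_of_nonneg_left h4 hC.le) h2 h3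
            (mul_nonneg hC.le (ep_pos _ _).le)
        _ = _ := by ring
    have hsum : ‖∑ n ∈ Finset.Ico a b, ((G (n + 1) : ℝ) : ℂ) * (f (n + 1) - f n)‖ ≤
        4 * C * (1 + |h|) * (C2 * ep (c / 2) a) := by
      have h1 : ∀ n ∈ Finset.Ico a b, ‖((G (n + 1) : ℝ) : ℂ) * (f (n + 1) - f n)‖ ≤
          4 * C * (1 + |h|) * (ep c n * u n) := by
        intro n hn
        rw [Finset.mem_Ico] at hn
        have hn2 : 2 ≤ n := ha.trans hn.1
        have hn0 : (0 : ℝ) < n := by positivity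
        obtain ⟨d1, d2⟩ := u_diff hn2
        have h2 : f (n + 1) - f n = (g h (n + 1) - g h n) * ((u n : ℝ) : ℂ) -
            g h (n + 1) * ((u n - u (n + 1) : ℝ) : ℂ) := by
          rw [hf]
          push_cast
          ring
        have h3 : ‖f (n + 1) - f n‖ ≤ |h| / n * u n + (u n - u (n + 1)) := by
          rw [h2]
          refine (norm_sub_le _ _).trans ?_
          rw [norm_mul, norm_mul, norm_g, one_mul, Complex.norm_real, Complex.norm_real,
            Real.norm_eq_abs, Real.norm_eq_abs, abs_of_nonneg (hu0 n), abs_of_nonneg d1]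
          gcongr
          · exact hu0 n
          · exact g_diff h (by omega)
        rw [norm_mul, Complex.norm_real, Real.norm_eq_abs]
        have h4 := (hG n hn2).2
        have h5 : 0 ≤ |h| / n * u n + (u n - u (n + 1)) := (norm_nonneg _).trans h3
        calc |G (n + 1)| * ‖f (n + 1) - f n‖
            ≤ (C * (n * ep c n)) * (|h| / n * u n + (u n - u (n + 1))) :=
              mul_le_mul h4 h3 (norm_nonneg _) (mul_nonneg hC.le (mul_nonneg hn0.le (ep_pos _ _).le))
          _ = C * ep c n * (|h| * u n + n * (u n - u (n + 1))) := by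
              field_simp
          _ ≤ C * ep c n * (|h| * u n + 3 * u n) := by
              apply mul_le_mul_of_nonneg_left _ (mul_nonneg hC.le (ep_pos _ _).le)
              linarith
          _ = C * (|h| + 3) * (ep c n * u n) := by ring
          _ ≤ 4 * C * (1 + |h|) * (ep c n * u n) := by
              apply mul_le_mul_of_nonneg_right _ (mul_nonneg (ep_pos _ _).le (hu0 n))
              nlinarith
      refine (norm_sum_le_of_le _ h1).trans ?_
      rw [← Finset.mul_sum]
      exact mul_le_mul_of_nonneg_left (hS a b ha hab) (by positivity)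
    have h1 := hnorm a ha
    have h2 := hnorm b hb2
    have h3 := ep_anti (show 0 < c / 2 by positivity) (by omega : 1 ≤ a) hab
    have h4 := ep_pos (c / 2) a
    calc ‖((G b : ℝ) : ℂ) * f b - ((G a : ℝ) : ℂ) * f a -
          ∑ n ∈ Finset.Ico a b, ((G (n + 1) : ℝ) : ℂ) * (f (n + 1) - f n)‖
        ≤ 2 * C * ep (c / 2) b + 2 * C * ep (c / 2) a + 4 * C * (1 + |h|) * (C2 * ep (c / 2) a) := by
          refine (norm_sub_le _ _).trans (add_le_add ((norm_sub_le _ _).trans (add_le_add h2 h1)) hsum)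
      _ ≤ 4 * C * ep (c / 2) a * (1 + |h|) + 4 * C * (1 + |h|) * (C2 * ep (c / 2) a) := by
          have : 2 * C * ep (c / 2) b ≤ 2 * C * ep (c / 2) a := mul_le_mul_of_nonneg_left h3 (by positivity)
          have h5 : 0 ≤ 4 * C * ep (c / 2) a * |h| := by positivity
          nlinarith
      _ = _ := by ring
  -- second sum
  have hB : ‖∑ n ∈ Finset.Ico a b, f n‖ ≤ 2 / (|h| * Real.log a) + 40 * (1 + |h|) * ep (c / 2) a := by
    have h1 : ∑ n ∈ Finset.Ico a b, f n =
        -(∑ n ∈ Finset.Ico a b, (g h (n + 1) - g h n) * ((w n : ℝ) : ℂ)) / ((h : ℂ) * Complex.I) +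
        ∑ n ∈ Finset.Ico a b, (g h n * ((1 / (n : ℝ) : ℝ) : ℂ) - (g h n - g h (n + 1)) / ((h : ℂ) * Complex.I)) *
          ((w n : ℝ) : ℂ) := by
      rw [← Finset.sum_neg_distrib, Finset.sum_div, ← Finset.sum_add_distrib]
      refine Finset.sum_congr rfl fun n _ => ?_
      rw [hf]
      simp only
      rw [u_eq]
      push_cast
      ring
    have h2 : ‖∑ n ∈ Finset.Ico a b, (g h (n + 1) - g h n) * ((w n : ℝ) : ℂ)‖ ≤ 2 * w a := by
      rw [abel (g h) (fun n => ((w n : ℝ) : ℂ)) a b hab]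
      have k1 : ‖∑ n ∈ Finset.Ico a b, g h (n + 1) * (((w (n + 1) : ℝ) : ℂ) - ((w n : ℝ) : ℂ))‖ ≤ w a - w b := by
        rw [← tele w a b hab]
        refine norm_sum_le_of_le _ fun n hn => ?_
        rw [Finset.mem_Ico] at hn
        rw [norm_mul, norm_g, one_mul, ← Complex.ofReal_sub, Complex.norm_real, Real.norm_eq_abs, abs_sub_comm,
          abs_of_nonneg (sub_nonneg.2 (w_anti (ha.trans hn.1)))]
      have k2 : ‖g h b * ((w b : ℝ) : ℂ)‖ = w b := by
        rw [norm_mul, norm_g, one_mul, Complex.norm_real, Real.norm_eq_abs, abs_of_nonneg (w_nonneg b)]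
      have k3 : ‖g h a * ((w a : ℝ) : ℂ)‖ = w a := by
        rw [norm_mul, norm_g, one_mul, Complex.norm_real, Real.norm_eq_abs, abs_of_nonneg (w_nonneg a)]
      refine (norm_sub_le _ _).trans ((add_le_add (norm_sub_le _ _) k1).trans ?_)
      rw [k2, k3]
      linarith
    have h3 : ‖∑ n ∈ Finset.Ico a b, (g h n * ((1 / (n : ℝ) : ℝ) : ℂ) - (g h n - g h (n + 1)) / ((h : ℂ) * Complex.I)) *
          ((w n : ℝ) : ℂ)‖ ≤ 12 * (1 + |h|) * (1 / (a : ℝ)) := by
      have k1 : ∀ n ∈ Finset.Ico a b, ‖(g h n * ((1 / (n : ℝ) : ℝ) : ℂ) - (g h n - g h (n + 1)) / ((h : ℂ) * Complex.I)) *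
          ((w n : ℝ) : ℂ)‖ ≤ 12 * (1 + |h|) * (1 / (n : ℝ) - 1 / ((n + 1 : ℕ) : ℝ)) := by
        intro n hn
        rw [Finset.mem_Ico] at hn
        have hn2 : 2 ≤ n := ha.trans hn.1
        have hn0 : (0 : ℝ) < n := by positivity
        have hn1 : (1 : ℝ) ≤ n := by exact_mod_cast (by omega : 1 ≤ n)
        rw [norm_mul, Complex.norm_real, Real.norm_eq_abs, abs_of_nonneg (w_nonneg n)]
        have k2 := near_diff hh (by omega : 1 ≤ n)
        calc _ ≤ 3 * (1 + |h|) / (n : ℝ) ^ 2 * 2 := mul_le_mul k2 (w_le hn2) (w_nonneg n) (by positivity)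
          _ = 6 * (1 + |h|) * (1 / (n : ℝ) ^ 2) := by ring
          _ ≤ 6 * (1 + |h|) * (2 * (1 / (n : ℝ) - 1 / ((n + 1 : ℕ) : ℝ))) := by
              apply mul_le_mul_of_nonneg_left _ (by positivity)
              push_cast
              rw [div_sub_div _ _ hn0.ne' (by positivity), ← mul_div_assoc, div_le_div_iff₀ (by positivity) (by positivity)]
              nlinarith
          _ = _ := by ring
      refine (norm_sum_le_of_le _ k1).trans ?_
      rw [← Finset.mul_sum, tele (fun n => 1 / (n : ℝ)) a b hab]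
      apply mul_le_mul_of_nonneg_left _ (by positivity)
      have : (0 : ℝ) ≤ 1 / (b : ℝ) := by positivity
      linarith
    have h4 : 1 / (a : ℝ) ≤ 3 * ep (c / 2) a := inv_le (by positivity) (by linarith) (by omega)
    rw [h1]
    refine (norm_add_le _ _).trans ?_
    have h5 : ‖-(∑ n ∈ Finset.Ico a b, (g h (n + 1) - g h n) * ((w n : ℝ) : ℂ)) / ((h : ℂ) * Complex.I)‖ ≤
        2 / (|h| * Real.log a) := by
      rw [norm_div, norm_neg, norm_mul, Complex.norm_I, mul_one, Complex.norm_real, Real.norm_eq_abs]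
      calc _ ≤ 2 * w a / |h| := div_le_div_of_nonneg_right h2 hha.le
        _ = _ := by
          unfold w
          have := logn ha
          have h6 : Real.log a ≠ 0 := by linarith
          field_simp
    refine (add_le_add h5 h3).trans ?_
    have h6 : 12 * (1 + |h|) * (1 / (a : ℝ)) ≤ 12 * (1 + |h|) * (3 * ep (c / 2) a) :=
      mul_le_mul_of_nonneg_left h4 (by positivity)
    have h7 : 0 ≤ (1 + |h|) * ep (c / 2) a := mul_nonneg (by positivity) (ep_pos _ _).le
    linarith
  rw [hdec]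
  refine (norm_add_le _ _).trans ((add_le_add hA hB).trans ?_)
  have hep : ep (c / 2) a = Real.exp (-(c / 2 * Real.sqrt (Real.log a))) := rfl
  rw [← hep]
  have hLa := logn ha
  have h8 : 2 / (|h| * Real.log a) ≤ (4 * C + 4 * C * C2 + 40) / (|h| * Real.log a) := by
    apply div_le_div_of_nonneg_right _ (by positivity)
    have : 0 ≤ 4 * C + 4 * C * C2 := by positivity
    linarith
  have h9 : (4 * C + 4 * C * C2) * (1 + |h|) * ep (c / 2) a + 40 * (1 + |h|) * ep (c / 2) a =
      (4 * C + 4 * C * C2 + 40) * (1 + |h|) * ep (c / 2) a := by ring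
  linarith

end

end Pool.Agent.Q129.EW.PS
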